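import Pool.Agent.Q266.RP.Stm

/-! Project RP (helper266), job CARDC (helper204). -/

set_option autoImplicit false

namespace Pool.Agent.Q204.RP

open Pool.Agent.Q266.RP

theorem cardc : S_CARDC := by
  intro p hp G _ _ e z hpair
  obtain ⟨hep, hec, hz, hzo, hconj⟩ := hpair
  have hzc : ∀ (n : ℕ) (g : G), g * z ^ n = z ^ n * g := by
    intro n g
    have h1 : z ^ n ∈ Subgroup.center G := Subgroup.pow_mem _ hz n
    exact Subgroup.mem_center_iff.1 h1 g
  have hf : ∀ g : G, ∃ n : ℕ, g * e * g⁻¹ * e⁻¹ = z ^ n := by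
    intro g
    obtain ⟨n, hn⟩ := hconj g
    refine ⟨n, ?_⟩
    rw [hn, hzc n e, mul_assoc, mul_inv_cancel, mul_one]
  let f : G →* G := MonoidHom.mk' (fun g => g * e * g⁻¹ * e⁻¹) (by
    intro a b
    obtain ⟨n, hn⟩ := hf b
    have h1 : b * e * b⁻¹ = z ^ n * e := by
      rw [← hn]
      group
    calc a * b * e * (a * b)⁻¹ * e⁻¹ = a * (b * e * b⁻¹) * a⁻¹ * e⁻¹ := by group
      _ = a * (z ^ n * e) * a⁻¹ * e⁻¹ := by rw [h1]
      _ = (a * z ^ n) * e * a⁻¹ * e⁻¹ := by group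
      _ = (z ^ n * a) * e * a⁻¹ * e⁻¹ := by rw [hzc]
      _ = z ^ n * (a * e * a⁻¹ * e⁻¹) := by group
      _ = (a * e * a⁻¹ * e⁻¹) * z ^ n := (hzc n _).symm
      _ = (a * e * a⁻¹ * e⁻¹) * (b * e * b⁻¹ * e⁻¹) := by rw [hn])
  have hfa : ∀ g, f g = g * e * g⁻¹ * e⁻¹ := fun _ => rfl
  have hker : f.ker = Subgroup.centralizer ({e} : Set G) := by
    ext g
    rw [MonoidHom.mem_ker, hfa, Subgroup.mem_centralizer_singleton_iff, mul_inv_eq_one,
      mul_inv_eq_iff_eq_mul]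
  have hle : f.range ≤ Subgroup.zpowers z := by
    rintro _ ⟨g, rfl⟩
    obtain ⟨n, hn⟩ := hf g
    rw [hfa, hn]
    exact Subgroup.npow_mem_zpowers z n
  have hdvd : Nat.card f.range ∣ p := by
    have := Subgroup.card_dvd_of_le hle
    rwa [Nat.card_zpowers, hzo] at this
  have hne : Nat.card f.range ≠ 1 := by
    intro h
    have hb : f.range = ⊥ := Subgroup.card_eq_one.1 h
    apply hec
    rw [Subgroup.mem_center_iff]
    intro g
    have h2 : f g ∈ f.range := ⟨g, rfl⟩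
    rw [hb, Subgroup.mem_bot, hfa, mul_inv_eq_one, mul_inv_eq_iff_eq_mul] at h2
    exact h2
  have hcard : Nat.card f.range = p := by
    rcases (Nat.dvd_prime hp.out).1 hdvd with h | h
    · exact absurd h hne
    · exact h
  have h3 := Subgroup.card_mul_index f.ker
  rw [Subgroup.index_ker, hcard, hker] at h3
  rw [← h3, mul_comm]

end Pool.Agent.Q204.RP
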